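import Pool.Agent.MP_249f74_an.H17.CmGen

/-!
Real mirrors.
-/

open MvPolynomial Matrix

namespace Pool.Agent.MP_249f74_an.H52

open H17.Cm

/-- The field is algebraically closed in the reals. -/
def RC (k : Type) [Field k] [Algebra k ℝ] : Prop :=
  ∀ x : ℝ, IsAlgebraic k x → x ∈ Set.range (algebraMap k ℝ)

variable {k ι : Type} [Field k] [Algebra k ℝ]

/-- Prime polynomials with a real generic zero. -/
structure RM (F : MvPolynomial ι k) : Prop where
  prime : Prime F
  real : ∃ y : ι → ℝ, ∀ P, aeval y P = 0 ↔ F ∣ P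

omit [Algebra k ℝ] in
/-- Coefficientwise application of a linear map. -/
lemma exists_coeff {C : Type} [Field C] [Algebra k C] (π : C →ₗ[k] k) :
    ∃ Φ : MvPolynomial ι C → MvPolynomial ι k, (∀ P m, coeff m (Φ P) = π (coeff m P)) ∧
      ∀ F G, Φ (map (algebraMap k C) F * G) = F * Φ G := by
  classical
  have h : ∀ P : MvPolynomial ι C, ∃ Q : MvPolynomial ι k, ∀ m, coeff m Q = π (coeff m P) :=
    fun P => ⟨∑ m ∈ P.support, monomial m (π (coeff m P)), fun m => by
      simp only [coeff_sum, coeff_monomial, Finset.sum_ite_eq', mem_support_iff]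
      split_ifs with h
      · rfl
      · rw [not_not.1 h, map_zero]⟩
  choose Φ hΦ using h
  refine ⟨Φ, hΦ, fun F G => MvPolynomial.ext _ _ fun m => ?_⟩
  simp only [hΦ, coeff_mul, map_sum, coeff_map, ← Algebra.smul_def, map_smul, smul_eq_mul]

omit [Algebra k ℝ] in
lemma dvd_of_map {C : Type} [Field C] [Algebra k C] {F P : MvPolynomial ι k}
    (h : map (algebraMap k C) F ∣ map (algebraMap k C) P) : F ∣ P := by
  obtain ⟨π, hπ⟩ := (Algebra.linearMap k C).exists_leftInverse_of_injective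
    (LinearMap.ker_eq_bot.2 (algebraMap k C).injective)
  obtain ⟨Φ, h1, h2⟩ := exists_coeff (ι := ι) π
  obtain ⟨G, e⟩ := h
  refine ⟨Φ G, ?_⟩
  rw [← h2, ← e]
  ext m
  rw [h1, coeff_map]
  exact (LinearMap.congr_fun hπ _).symm

/-- Complex numbers that are algebraic over the field. -/
lemma RC.re_im (hk : RC k) [Algebra k ℂ] [IsScalarTower k ℝ ℂ] {z : ℂ} (h : IsAlgebraic k z) :
    z.re ∈ Set.range (algebraMap k ℝ) ∧ z.im ∈ Set.range (algebraMap k ℝ) := by
  have hc : IsAlgebraic k (starRingEnd ℂ z) :=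
    h.algHom ((Complex.conjAe.restrictScalars k : ℂ ≃ₐ[k] ℂ) : ℂ →ₐ[k] ℂ)
  have hI : IsAlgebraic k Complex.I :=
    ⟨Polynomial.X ^ 2 + 1, Polynomial.X_pow_add_C_ne_zero (a := (1 : k)) two_pos, by simp⟩
  have h2 : IsAlgebraic k (2 : ℂ)⁻¹ := (isAlgebraic_natCast 2).inv
  have key : ∀ x : ℝ, IsAlgebraic k (x : ℂ) → x ∈ Set.range (algebraMap k ℝ) := fun x hx =>
    hk x ((isAlgebraic_algHom_iff (IsScalarTower.toAlgHom k ℝ ℂ) (algebraMap ℝ ℂ).injective).1 hx)
  refine ⟨key _ ?_, key _ ?_⟩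
  · rw [Complex.re_eq_add_conj, div_eq_mul_inv]
    exact (h.add hc).mul h2
  · rw [Complex.im_eq_sub_conj, div_eq_mul_inv, mul_inv]
    exact (h.sub hc).mul (h2.mul hI.inv)

/-- Every element of an algebraic extension has the form `a + b i`. -/
lemma RC.eq (hk : RC k) {C : Type} [Field C] [Algebra k C] {i c : C} (hi : i ^ 2 = -1)
    (hc : IsAlgebraic k c) : ∃ a b : k, c = algebraMap k C a + algebraMap k C b * i := by
  let _ : Algebra k ℂ := ((algebraMap ℝ ℂ).comp (algebraMap k ℝ)).toAlgebra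
  have : IsScalarTower k ℝ ℂ := IsScalarTower.of_algebraMap_eq fun _ => rfl
  have hI : IsAlgebraic k i :=
    ⟨Polynomial.X ^ 2 + 1, Polynomial.X_pow_add_C_ne_zero (a := (1 : k)) two_pos, by simp [hi]⟩
  let E := algebraicClosure k C
  let φ : E →ₐ[k] ℂ := IsAlgClosed.lift
  let i' : E := ⟨i, mem_algebraicClosure_iff.2 hI⟩
  let c' : E := ⟨c, mem_algebraicClosure_iff.2 hc⟩
  obtain ⟨⟨a, ha⟩, b, hb⟩ := hk.re_im ((Algebra.IsAlgebraic.isAlgebraic (R := k) c').algHom φ)
  have h1 : φ i' ^ 2 = Complex.I ^ 2 := by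
    rw [← map_pow, show i' ^ 2 = -1 from Subtype.ext hi]; simp
  have h2 : φ c' = algebraMap k ℂ a + algebraMap k ℂ b * Complex.I := by
    rw [← Complex.re_add_im (φ c'), ← ha, ← hb]; rfl
  rcases sq_eq_sq_iff_eq_or_eq_neg.1 h1 with h | h
  · refine ⟨a, b, congrArg Subtype.val
      (φ.injective (a₁ := c') (a₂ := algebraMap k E a + algebraMap k E b * i') ?_)⟩
    simp [h, h2]
  · refine ⟨a, -b, congrArg Subtype.val
      (φ.injective (a₁ := c') (a₂ := algebraMap k E a + algebraMap k E (-b) * i') ?_)⟩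
    simp [h, h2]

namespace RM

variable {F : MvPolynomial ι k}

/-- Sums of squares. -/
lemma sq (h : RM F) {κ : Type} (s : Finset κ) {P : κ → MvPolynomial ι k}
    (h0 : F ∣ ∑ j ∈ s, P j * P j) : ∀ j ∈ s, F ∣ P j := fun j hj => by
  obtain ⟨y, hy⟩ := h.real
  rw [← hy, map_sum] at h0
  simp only [map_mul] at h0
  exact (hy _).1 (mul_self_eq_zero.1
    ((Finset.sum_eq_zero_iff_of_nonneg fun _ _ => mul_self_nonneg _).1 h0 j hj))

lemma td_ne (h : RM F) : F.totalDegree ≠ 0 := fun e => by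
  rw [totalDegree_eq_zero_iff_eq_C] at e
  refine h.prime.not_isUnit (e ▸ (IsUnit.mk0 _ fun h0 => h.prime.ne_zero ?_).map MvPolynomial.C)
  rw [e, h0, map_zero]

lemma mir [Fintype ι] [DecidableEq ι] (h : RM F) : Mir F :=
  ⟨h.prime, fun h0 => by
    have : CharZero k := (algebraMap k ℝ).charZero
    refine h.td_ne (td_zero_of_pderiv fun j => ?_)
    by_contra hn
    exact (totalDegree_le_of_dvd_of_isDomain (h.sq _ h0 j (Finset.mem_univ j)) hn).not_gt
      (H88.totalDegree_pderiv_lt hn)⟩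

lemma smul (h : RM F) {a : k} (ha : a ≠ 0) : RM (a • F) := by
  have e : Associated F (a • F) := by
    rw [smul_eq_C_mul]
    exact (associated_unit_mul_right F _ ((IsUnit.mk0 a ha).map MvPolynomial.C))
  exact ⟨e.prime h.prime, h.real.imp fun y hy P => (hy P).trans e.dvd_iff_dvd_left⟩

/-- The image under an automorphism of the polynomial ring. -/
lemma comp (h : RM F) (σ : MvPolynomial ι k ≃ₐ[k] MvPolynomial ι k) : RM (σ F) := by
  obtain ⟨y, hy⟩ := h.real
  refine ⟨(MulEquiv.prime_iff σ).2 h.prime, fun i => aeval y (σ.symm (X i)), fun P => ?_⟩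
  have : aeval (fun i => aeval y (σ.symm (X i))) P = aeval y (σ.symm P) :=
    (AlgHom.congr_fun (show aeval _ = (aeval y).comp (σ.symm : _ →ₐ[k] _) by ext; simp) P)
  rw [this, hy, ← map_dvd_iff σ, AlgEquiv.apply_symm_apply]

/-- A complex polynomial with algebraic coefficients that vanishes at the real point. -/
lemma le_of_zero (hk : RC k) [Algebra k ℂ] [IsScalarTower k ℝ ℂ] {y : ι → ℝ}
    (hy : ∀ P, aeval y P = 0 ↔ F ∣ P) {G : MvPolynomial ι ℂ} (G0 : G ≠ 0)
    (ha : ∀ m, IsAlgebraic k (coeff m G)) (h0 : eval (fun i => (y i : ℂ)) G = 0) :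
    F.totalDegree ≤ G.totalDegree := by
  classical
  choose a ha' using fun m => (hk.re_im (ha m)).1
  choose b hb' using fun m => (hk.re_im (ha m)).2
  have key : ∀ c : (ι →₀ ℕ) → k,
      ∑ m ∈ G.support, algebraMap k ℝ (c m) * ∏ i ∈ m.support, y i ^ m i = 0 →
      (∃ m ∈ G.support, c m ≠ 0) → F.totalDegree ≤ G.totalDegree := fun c h1 ⟨m, hm, h2⟩ => by
    refine (totalDegree_le_of_dvd_of_isDomain
      ((hy (∑ m ∈ G.support, monomial m (c m))).1 ?_) fun e => h2 ?_).trans ?_
    · simpa [aeval_monomial, Finsupp.prod] using h1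
    · simpa [coeff_sum, coeff_monomial, hm] using congrArg (coeff m) e
    · exact totalDegree_finsetSum_le fun m hm =>
        (totalDegree_monomial_le _ _).trans (le_totalDegree hm)
  rw [eval_eq] at h0
  obtain ⟨m, hm⟩ := support_nonempty.2 G0
  have e : ∀ m : ι →₀ ℕ, ∏ i ∈ m.support, (y i : ℂ) ^ m i =
      ((∏ i ∈ m.support, y i ^ m i : ℝ) : ℂ) := fun m => by push_cast; rfl
  by_cases h1 : a m = 0
  · refine key b ?_ ⟨m, hm, fun h2 => mem_support_iff.1 hm (Complex.ext ?_ ?_)⟩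
    · simpa [e, hb', Complex.im_sum, -Complex.ofReal_prod] using congrArg Complex.im h0
    · rw [← ha', h1, map_zero]; rfl
    · rw [← hb', h2, map_zero]; rfl
  · refine key a ?_ ⟨m, hm, h1⟩
    simpa [e, ha', Complex.re_sum, -Complex.ofReal_prod] using congrArg Complex.re h0

omit [Algebra k ℝ] in
lemma td_map_le {R S : Type} [CommRing R] [CommRing S] (f : R →+* S) (P : MvPolynomial ι R) :
    (map f P).totalDegree ≤ P.totalDegree := Finset.sup_mono (support_map_subset f P)

omit [Algebra k ℝ] in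
lemma td_map {R S : Type} [CommRing R] [CommRing S] {f : R →+* S} (hf : Function.Injective f)
    (P : MvPolynomial ι R) : (map f P).totalDegree = P.totalDegree := by
  rw [totalDegree, support_map_of_injective P hf, totalDegree]

/-- Real mirrors are absolutely irreducible. -/
theorem prime_map (hk : RC k) (h : RM F) (C : Type) [Field C] [Algebra k C] :
    Prime (map (algebraMap k C) F) := by
  classical
  let _ : Algebra k ℂ := ((algebraMap ℝ ℂ).comp (algebraMap k ℝ)).toAlgebra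
  have : IsScalarTower k ℝ ℂ := IsScalarTower.of_algebraMap_eq fun _ => rfl
  obtain ⟨y, hy⟩ := h.real
  have d0 := td_map (algebraMap k C).injective F
  refine Irreducible.prime ⟨fun e => h.td_ne (d0 ▸ (isUnit_iff_totalDegree_of_isReduced.1 e).2),
    fun G H e => ?_⟩
  have F0 : G * H ≠ 0 := e ▸ fun e0 =>
    h.prime.ne_zero (map_injective _ (algebraMap k C).injective (e0.trans (map_zero _).symm))
  have d1 := totalDegree_mul_of_isDomain (left_ne_zero_of_mul F0) (right_ne_zero_of_mul F0)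
  let A := Algebra.adjoin k ((G.coeffs ∪ H.coeffs : Finset C) : Set C)
  have lift : ∀ P : MvPolynomial ι C, P.coeffs ⊆ G.coeffs ∪ H.coeffs →
      ∃ Q : MvPolynomial ι A, map (algebraMap A C) Q = P := fun P hP =>
    mem_range_map_iff_coeffs_subset.2 fun c hc => ⟨⟨c, Algebra.subset_adjoin (hP hc)⟩, rfl⟩
  obtain ⟨G', hG⟩ := lift G Finset.subset_union_left
  obtain ⟨H', hH⟩ := lift H Finset.subset_union_right
  have inj : Function.Injective (algebraMap A C) := Subtype.val_injective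
  have e1 : map (algebraMap k A) F = G' * H' := map_injective _ inj (by
    rw [MvPolynomial.map_map, map_mul, hG, hH, ← e, ← IsScalarTower.algebraMap_eq])
  obtain ⟨M, hM⟩ := Ideal.exists_maximal A
  let _ := Ideal.Quotient.field M
  have : Algebra.FiniteType k A := (Subalgebra.fg_iff_finiteType _).1 ⟨_, rfl⟩
  have := finite_of_finite_type_of_isJacobsonRing k (A ⧸ M)
  obtain ⟨φ, alg⟩ : ∃ φ : A →ₐ[k] ℂ, ∀ a, IsAlgebraic k (φ a) := by
    let ψ : (A ⧸ M) →ₐ[k] ℂ := IsAlgClosed.lift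
    exact ⟨ψ.comp (Ideal.Quotient.mkₐ k M), fun a =>
      (Algebra.IsAlgebraic.isAlgebraic (R := k) (Ideal.Quotient.mkₐ k M a)).algHom ψ⟩
  have e2 : map (algebraMap k ℂ) F = map (φ : A →+* ℂ) G' * map (φ : A →+* ℂ) H' := by
    rw [← map_mul, ← e1, MvPolynomial.map_map, φ.comp_algebraMap]
  have F1 : map (φ : A →+* ℂ) G' * map (φ : A →+* ℂ) H' ≠ 0 := e2 ▸ fun e0 =>
    h.prime.ne_zero (map_injective _ (algebraMap k ℂ).injective (e0.trans (map_zero _).symm))
  have e3 : eval (fun i => (y i : ℂ)) (map (algebraMap k ℂ) F) = 0 := by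
    rw [eval_map, ← aeval_def]
    have := comp_aeval_apply y (IsScalarTower.toAlgHom k ℝ ℂ) F
    rw [(hy F).2 dvd_rfl, map_zero] at this
    exact this.symm
  have unit : ∀ P : MvPolynomial ι C, P ≠ 0 → P.totalDegree = 0 → IsUnit P := fun P h1 h2 => by
    rw [totalDegree_eq_zero_iff_eq_C] at h2
    exact h2 ▸ (IsUnit.mk0 _ fun h0 => h1 (by rw [h2, h0, map_zero])).map MvPolynomial.C
  rw [e2, map_mul, mul_eq_zero] at e3
  have d2 : G.totalDegree = G'.totalDegree := hG ▸ td_map inj G'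
  have d3 : H.totalDegree = H'.totalDegree := hH ▸ td_map inj H'
  rw [← e, d0] at d1
  rcases e3 with e3 | e3
  · have := (le_of_zero hk hy (left_ne_zero_of_mul F1) (fun m => by
      rw [coeff_map]; exact alg _) e3).trans (td_map_le _ _)
    exact Or.inr (unit _ (right_ne_zero_of_mul F0) (by omega))
  · have := (le_of_zero hk hy (right_ne_zero_of_mul F1) (fun m => by
      rw [coeff_map]; exact alg _) e3).trans (td_map_le _ _)
    exact Or.inl (unit _ (left_ne_zero_of_mul F0) (by omega))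

lemma mir_map [Fintype ι] [DecidableEq ι] (hk : RC k) (h : RM F) (C : Type) [Field C]
    [Algebra k C] : Mir (map (algebraMap k C) F) :=
  ⟨h.prime_map hk C, fun h0 => h.mir.nn (dvd_of_map (C := C) (by
    simpa [pderiv_map] using h0))⟩

open scoped IntermediateField.algebraAdjoinAdjoin in
/-- The field of a generic point is real. -/
theorem emb (h : RM F) {Ω : Type} [Field Ω] [Algebra k Ω] {q : ι → Ω}
    (hq : ∀ P, aeval q P = 0 ↔ F ∣ P) :
    Nonempty (IntermediateField.adjoin k (Set.range q) →ₐ[k] ℝ) := by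
  obtain ⟨y, hy⟩ := h.real
  let f : MvPolynomial ι k →ₐ[k] Algebra.adjoin k (Set.range q) :=
    (aeval q).codRestrict _ fun P => by
      rw [Algebra.adjoin_range_eq_range_aeval]; exact ⟨P, rfl⟩
  have hf : Function.Surjective f := fun ⟨a, ha⟩ => by
    rw [Algebra.adjoin_range_eq_range_aeval] at ha
    exact ha.imp fun P hP => Subtype.ext hP
  have f0 : ∀ P, f P = 0 ↔ aeval y P = 0 := fun P => by rw [hy, ← hq]; exact Subtype.ext_iff
  let ψ := AlgHom.liftOfSurjective f hf (aeval y) fun P hP => (f0 P).1 hP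
  have hψ : Function.Injective ψ := (injective_iff_map_eq_zero _).2 fun a ha => by
    obtain ⟨P, rfl⟩ := hf a
    exact (f0 P).2 ((AlgHom.liftOfSurjective_apply ..).symm.trans ha)
  exact ⟨IsFractionRing.liftAlgHom hψ⟩

/-- Sums of squares in the field of a generic point. -/
theorem ani (h : RM F) {Ω : Type} [Field Ω] [Algebra k Ω] {q : ι → Ω}
    (hq : ∀ P, aeval q P = 0 ↔ F ∣ P) {κ : Type} (s : Finset κ) {a : κ → Ω}
    (ha : ∀ j ∈ s, a j ∈ IntermediateField.adjoin k (Set.range q)) (h0 : ∑ j ∈ s, a j ^ 2 = 0) :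
    ∀ j ∈ s, a j = 0 := fun j hj => by
  obtain ⟨φ⟩ := h.emb hq
  have e : ∑ i ∈ s.attach, (⟨a i, ha i i.2⟩ : IntermediateField.adjoin k (Set.range q)) ^ 2 = 0 :=
    Subtype.ext (by simpa [Finset.sum_attach s fun i => a i ^ 2] using h0)
  have e1 := congrArg φ e
  simp only [map_sum, map_pow, map_zero] at e1
  have e2 := (Finset.sum_eq_zero_iff_of_nonneg fun _ _ => sq_nonneg _).1 e1 ⟨j, hj⟩
    (Finset.mem_attach _ _)
  exact congrArg Subtype.val ((map_eq_zero φ).1 (pow_eq_zero_iff two_ne_zero |>.1 e2))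

/-- The constants in the field of a generic point. -/
theorem cst (hk : RC k) (h : RM F) {Ω : Type} [Field Ω] [Algebra k Ω] {q : ι → Ω}
    (hq : ∀ P, aeval q P = 0 ↔ F ∣ P) {a : Ω} (ha : a ∈ IntermediateField.adjoin k (Set.range q))
    (h0 : IsAlgebraic k a) : ∃ c, a = algebraMap k Ω c := by
  obtain ⟨φ⟩ := h.emb hq
  have h1 : IsAlgebraic k (⟨a, ha⟩ : IntermediateField.adjoin k (Set.range q)) :=
    (isAlgebraic_algHom_iff (IntermediateField.val _) Subtype.val_injective).1 h0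
  obtain ⟨c, hc⟩ := hk _ (h1.algHom φ)
  exact ⟨c, congrArg Subtype.val (φ.injective (hc.symm.trans (φ.commutes c).symm))⟩

end RM

end Pool.Agent.MP_249f74_an.H52
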