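import Pool.Agent.MP_249f74_an.H52.Unf

/-!
From reduced chains of real mirrors to closed chains.
-/

open MvPolynomial Matrix Set

namespace Pool.Agent.MP_249f74_an.H52

open H17.Cm

variable {k C Ω ι : Type} [Field k] [Field C] [Field Ω] [Fintype ι] [DecidableEq ι]

section Conv

variable [Algebra k ℝ] [Algebra k C] [Algebra k Ω] [Algebra C Ω] [IsScalarTower k C Ω]
  {l l' : Li Ω ι} {q : ι → Ω} {F : MvPolynomial ι k}

omit [Algebra k ℝ] [Fintype ι] [DecidableEq ι] in
lemma aeval_map (q : ι → Ω) (F : MvPolynomial ι k) :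
    aeval q (map (algebraMap k C) F) = aeval q F := aeval_map_algebraMap C q F

omit [Algebra k ℝ] [Fintype ι] [DecidableEq ι] in
lemma grad_map (q : ι → Ω) (F : MvPolynomial ι k) :
    grad (map (algebraMap k C) F) q = grad F q := funext fun i => by
  simp only [grad, pderiv_map, aeval_map]

omit [Algebra k ℝ] [DecidableEq ι] in
lemma step_map : Step (map (algebraMap k C) F) l q l' ↔ Step F l q l' := by
  constructor <;> rintro ⟨h1, h2, h3, h4, h5, h6⟩ <;> refine ⟨h1, h2, ?_, ?_, ?_, ?_⟩ <;>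
    simp_all only [grad_map, aeval_map, ne_eq, not_false_eq_true]

omit [Algebra k ℝ] [DecidableEq ι] in
lemma gen_base (h : Gen C l) : Gen k l := fun a b h1 h2 =>
  (h a b h1 h2).elim fun θ h => ⟨θ.restrictScalars k, h⟩

variable (C) in
/-- The normalized mirror. -/
lemma RM.toMir (hk : RC k) (h : RM F) (h2 : 2 ≤ F.totalDegree) :
    ∃ (m : H32.Mir k C ι) (a : C), a ≠ 0 ∧ m.f = a • map (algebraMap k C) F := by
  have hm := h.mir_map hk C
  obtain ⟨u, hu⟩ := Associates.mk_eq_mk_iff_associated.1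
    (Quot.out_eq (Associates.mk (MvPolynomial.map (algebraMap k C) F))).symm
  obtain ⟨a, ha, e⟩ := isUnit_iff_eq_C_of_isReduced.1 u.isUnit
  have e1 : Quot.out (Associates.mk (map (algebraMap k C) F)) = a • map (algebraMap k C) F := by
    rw [← hu, e, mul_comm, smul_eq_C_mul]
  have e2 : Associated (map (algebraMap k C) F) (a • map (algebraMap k C) F) := e1 ▸ ⟨u, hu⟩
  obtain ⟨y, hy⟩ := h.real
  refine ⟨⟨a • map (algebraMap k C) F, e2.prime hm.prime, ?_,
    by rw [← Associates.mk_eq_mk_iff_associated.2 e2, e1], ⟨F, a, y, rfl, hy⟩, fun hd => hm.nn ?_⟩,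
    a, ha.ne_zero, rfl⟩
  · exact h2.trans ((RM.td_map (algebraMap k C).injective F).ge.trans
      (totalDegree_le_of_dvd_of_isDomain e2.dvd (e2.prime hm.prime).ne_zero))
  · simp only [Derivation.map_smul, smul_mul_smul, ← Finset.smul_sum] at hd
    rw [smul_eq_C_mul _ (a * a)] at hd
    exact ((ha.mul ha).map MvPolynomial.C).dvd_mul_left.1 (e2.dvd.trans hd)

variable [CharZero Ω]

/-- Closed chains of real mirrors. -/
theorem closed [Nontrivial ι] (hk : RC k) (hF : H72.Fin' k C ι) {n : ℕ}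
    {F : ℕ → MvPolynomial ι k} {L : ℕ → Li Ω ι} {q : ℕ → ι → Ω} (hl : Gen C (L 0))
    (h : ∀ i < n, RM (F i) ∧ Step (F i) (L i) (q i) (L (i + 1))) (hc : L n = L 0) :
    tot n L q = 0 := by
  obtain ⟨l', n', F', L', q', A, b, p, e1, e2, e3⟩ := unfold n F L q h
  rw [hc] at e1 e2 e3
  obtain ⟨a1, a2⟩ : l' = L 0 ∧ tot n' L' q' = 0 := by
    rcases n'.eq_zero_or_pos with rfl | hn
    · exact ⟨p.ln.symm.trans p.l0, by simp [tot]⟩
    have hi : ∀ i, (if i < n' then i else 0) < n' := fun i => by split_ifs <;> omega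
    choose m a ha hm using fun i => (p.st _ (hi i)).1.1.toMir C hk (p.st _ (hi i)).1.2
    refine zero hF hl (m := m) ⟨fun i hi => ?_, p.l0, p.ln⟩ (A.map (algebraMap k C))
      (algebraMap k C ∘ b) ?_ ?_
    · rw [hm, if_pos hi]
      exact (step_map.2 (p.st i hi).2).smul (ha i)
    · rw [e1, Matrix.map_map, ← RingHom.coe_comp, ← IsScalarTower.algebraMap_eq]
    · rwa [Matrix.map_map, ← Function.comp_assoc, ← RingHom.coe_comp, ← IsScalarTower.algebraMap_eq]
  rw [e3, a2, zero_add]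
  subst a1
  obtain ⟨A', hA⟩ : ∃ A', A' = A.map (algebraMap k Ω) := ⟨_, rfl⟩
  obtain ⟨b', hb⟩ : ∃ b', b' = algebraMap k Ω ∘ b := ⟨_, rfl⟩
  rw [← hA, ← hb] at e2 ⊢
  rw [← hA] at e1
  have d1 : ∀ (θ : Derivation k Ω Ω) v, dv θ (A' *ᵥ v) = A' *ᵥ dv θ v := fun θ v => by
    ext i; simp [hA, dv, mulVec, dotProduct]
  have d2 : ∀ θ : Derivation k Ω Ω, dv θ b' = 0 := fun θ => by ext i; simp [hb, dv]
  have d3 : ∀ a, a ⬝ᵥ (L 0).u = 0 → A' *ᵥ a = a := fun a ha => by
    obtain ⟨θ, -, h1, -⟩ := (gen_base (k := k) hl).free (L 0).on_x a 0 ha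
    rw [← h1, ← d1, ← e1]
  rw [d3 _ (L 0).xu] at e2 ⊢
  obtain ⟨t, ht⟩ := (L 0).on_x.sub e2
  rw [ht, add_dotProduct, (L 0).xu, zero_add, smul_dotProduct, (L 0).uu, smul_eq_mul, mul_one]
  by_contra t0
  rw [add_right_inj] at ht
  have d4 : ∀ a, a ⬝ᵥ (L 0).u = 0 → a = 0 := fun a ha => by
    obtain ⟨θ, -, h1, -⟩ := (gen_base (k := k) hl).free (L 0).on_x a 0 ha
    have h2 := d2 θ
    rw [ht, dv_smul, h1] at h2
    have h3 : θ t = 0 := by simpa [ha, (L 0).uu] using congrArg (· ⬝ᵥ (L 0).u) h2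
    simpa [h3, t0] using h2
  have d5 : ∀ j, Pi.single j 1 - (L 0).u j • (L 0).u = 0 := fun j => d4 _ (by simp [(L 0).uu])
  obtain ⟨i, j, hij⟩ := exists_pair_ne ι
  have h1 := congrFun (d5 i) i
  have h2 := congrFun (d5 j) j
  have h3 := congrFun (d5 i) j
  simp only [Pi.sub_apply, Pi.single_eq_same, Pi.smul_apply, smul_eq_mul, Pi.zero_apply,
    Pi.single_eq_of_ne hij.symm] at h1 h2 h3
  refine one_ne_zero (α := Ω) ?_
  linear_combination h1 + (L 0).u i ^ 2 * h2 - (L 0).u i * (L 0).u j * h3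

end Conv

/-- The oriented line. -/
def li [Algebra C Ω] {E : Submodule Ω (H17.Der C Ω)} (l : H90.Ln E ι) : Li Ω ι :=
  ⟨l.u, l.x, l.uu, l.xu⟩

omit [DecidableEq ι] in
lemma gen_li [Algebra C Ω] {E : Submodule Ω (H17.Der C Ω)} (l : H90.Ln E ι) : Gen C (li l) :=
  fun a b h1 h2 => by
    obtain ⟨θ, -, h3, h4⟩ := l.surj a b h1 h2
    exact ⟨θ, congrFun h3, congrFun h4⟩

/-- The interface, with any lower bound for the dimension. -/
theorem conv' (d : ℕ) (hF : ∀ (k C ι : Type) [Field k] [Algebra k ℝ] [Field C] [IsAlgClosed C]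
    [CharZero C] [Algebra k C] [Fintype ι] [DecidableEq ι] [Nontrivial ι], RC k →
      d ≤ Fintype.card ι → H72.Fin' k C ι) :
    H90.StmtA fun k Ω ι _ _ _ _ _ q => H90.RL k Ω ι q ∧ d ≤ Fintype.card ι := by
  intro k C Ω ι _ _ _ _ _ _ _ _ _ _ _ _ _ E m l n _ hc hy _ hp
  classical
  rcases n.eq_zero_or_pos with rfl | hn
  · simp [H90.del]
  have : CharZero C := (algebraMap C Ω).charZero
  have hk : RC k := (hp 0 hn).2.1.1
  have key : ∀ i, ∃ F : MvPolynomial ι k, i < n →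
      RM F ∧ Step F (li (l i)) (m i).q (li (l (i + 1))) := fun i => by
    by_cases hi : i < n
    swap
    · exact ⟨0, fun e => absurd e hi⟩
    obtain ⟨-, ⟨-, h1, y, hy⟩, -⟩ := hp i hi
    have r := hc i i.zero_le hi
    have g : Gen k (li (l i)) := gen_base (gen_li (l i))
    obtain ⟨F, hF, h0⟩ : ∃ F : MvPolynomial ι k, Irreducible F ∧ aeval (m i).q F = 0 := by
      rw [algebraicIndependent_iff] at h1
      push Not at h1
      obtain ⟨P, h1, h2⟩ := h1
      induction P using WfDvdMonoid.induction_on_irreducible with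
      | zero => exact absurd rfl h2
      | unit u hu => exact absurd h1 (hu.map _).ne_zero
      | mul a p ha hp ih =>
        rcases mul_eq_zero.1 ((map_mul _ _ _).symm.trans h1) with h | h
        exacts [⟨p, hp, h⟩, ih h ha]
    have hr : RM F := ⟨hF.prime, y, fun P => (hy P).symm.trans
      ⟨g.ker r.on.eq hF h0, fun ⟨G, e⟩ => by rw [e, map_mul, h0, zero_mul]⟩⟩
    have hn := (g.good hr.mir).nn _ r.on.eq h0
    have e : grad F (m i).q = (grad F (m i).q ⬝ᵥ (m i).ν) • (m i).ν :=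
      H90.par (m i).νν fun w hw => by
        obtain ⟨θ, -, rfl⟩ := (m i).surj w hw
        exact grad_dv (θ := θ.restrictScalars k) h0
    have e0 : grad F (m i).q ⬝ᵥ (m i).ν ≠ 0 := fun e0 => hn (by rw [e, e0]; simp)
    refine ⟨F, fun _ => ⟨hr, r.on.eq, r.on'.eq, h0, hn, g.nu r.on.eq h0 fun e => hn (by simp [e]),
      ?_⟩⟩
    rw [e, smul_rf e0, rf, (m i).νν, div_one]
    exact r.eq
  choose F hF' using key
  have := closed hk (hF k C ι hk (hp 0 hn).2.2) (gen_li (l 0)) hF' (Li.ext hy.1 hy.2)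
  rw [H90.del, ← Finset.range_eq_Ico]
  exact this

/-- Part A in dimension at least three. -/
theorem conv (hF : ∀ (k C ι : Type) [Field k] [Algebra k ℝ] [Field C] [IsAlgClosed C]
    [CharZero C] [Algebra k C] [Fintype ι] [DecidableEq ι] [Nontrivial ι], RC k →
      3 ≤ Fintype.card ι → H72.Fin' k C ι) : H90.StmtA (H72.up H90.RL) := conv' 3 hF

end Pool.Agent.MP_249f74_an.H52
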