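import Pool.Agent.MP_249f74_an.H52.Real
import Pool.Agent.MP_249f74_an.H72.Zero
import Pool.Agent.MP_249f74_an.H72.Glue
import Pool.Agent.MP_249f74_an.H96A.Down

/-!
Planes are unfolded, and the field is reduced to the closure of the field of the line.
-/

open MvPolynomial Matrix Set

namespace Pool.Agent.MP_249f74_an.H52

open H17.Cm
open H88 (cl subset_cl mem_cl_of_root)

variable {k C Ω ι : Type} [Field k] [Field C] [Field Ω] [Fintype ι] [DecidableEq ι]

section Aff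

/-- The affine substitution. -/
noncomputable def sub (A : Matrix ι ι k) (b : ι → k) :
    MvPolynomial ι k →ₐ[k] MvPolynomial ι k :=
  aeval fun i => ∑ j, MvPolynomial.C (A i j) * X j + MvPolynomial.C (b i)

omit [DecidableEq ι] in
lemma aeval_sub [Algebra k Ω] (A : Matrix ι ι k) (b : ι → k) (x : ι → Ω) (F : MvPolynomial ι k) :
    aeval x (sub A b F) = aeval (A.map (algebraMap k Ω) *ᵥ x + algebraMap k Ω ∘ b) F := by
  rw [sub, comp_aeval_apply]
  congr 2
  ext i
  simp [mulVec, dotProduct]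

omit [DecidableEq ι] in
lemma td_sub (A : Matrix ι ι k) (b : ι → k) (F : MvPolynomial ι k) :
    (sub A b F).totalDegree ≤ F.totalDegree := by
  conv_lhs => rw [F.as_sum, map_sum]
  refine totalDegree_finsetSum_le fun m hm => le_trans ?_ (le_totalDegree hm)
  rw [sub, aeval_monomial, algebraMap_eq]
  refine (totalDegree_mul _ _).trans ?_
  rw [totalDegree_C, zero_add]
  refine (totalDegree_finsetProd _ _).trans (Finset.sum_le_sum fun i _ =>
    (totalDegree_pow _ _).trans (mul_le_of_le_one_right' ((totalDegree_add _ _).trans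
      (max_le (totalDegree_finsetSum_le fun j _ => (totalDegree_mul _ _).trans ?_) (by simp)))))
  simp

/-- The matrix of a reflection. -/
noncomputable def rm (N : ι → k) : Matrix ι ι k := 1 - (2 / (N ⬝ᵥ N)) • vecMulVec N N

lemma rm_mulVec [Algebra k Ω] (N : ι → k) (v : ι → Ω) :
    (rm N).map (algebraMap k Ω) *ᵥ v = rf (algebraMap k Ω ∘ N) v := by
  ext i
  simp [rm, rf, mulVec, dotProduct, vecMulVec_apply, one_apply, sub_mul, Finset.mul_sum,
    Finset.sum_div, Finset.sum_mul, apply_ite (algebraMap k Ω), map_ofNat]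
  exact Finset.sum_congr rfl fun j _ => by ring

/-- The reflected equation. -/
lemma RM.refl [Algebra k ℝ] {F : MvPolynomial ι k} (h : RM F) (h2 : 2 ≤ F.totalDegree)
    {N : ι → k} (hN : N ⬝ᵥ N ≠ 0) (c : k) :
    RM (sub (rm N) (c • N) F) ∧ 2 ≤ (sub (rm N) (c • N) F).totalDegree := by
  have : CharZero k := (algebraMap k ℝ).charZero
  have e : ∀ G, sub (rm N) (c • N) (sub (rm N) (c • N) G) = G := fun G =>
    MvPolynomial.funext fun x => by
      have : rf N N = -N := by ext i; simp [rf]; field_simp; ring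
      simp only [← coe_aeval_eq_eval]
      change aeval x _ = aeval x _
      rw [aeval_sub, aeval_sub, rm_mulVec, rm_mulVec]
      change aeval (rf N (rf N x + c • N) + c • N) G = _
      rw [rf_add, rf_rf hN, rf_smul, this, smul_neg, neg_add_cancel_right]
  exact ⟨h.comp (AlgEquiv.ofAlgHom (sub (rm N) (c • N)) (sub (rm N) (c • N)) (AlgHom.ext e)
    (AlgHom.ext e)),
    h2.trans ((congrArg totalDegree (e F)).ge.trans (td_sub _ _ _))⟩

end Aff

section Line

/-- The reflected line. -/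
noncomputable def rl {N : ι → Ω} (hN : N ⬝ᵥ N ≠ 0) (z : ι → Ω) (l : Li Ω ι) : Li Ω ι :=
  mkLi (z + rf N (l.x - z)) (rf N l.u) (by rw [rf_dot_rf hN, l.uu])

variable {N z q : ι → Ω} (hN : N ⬝ᵥ N ≠ 0) {l l' : Li Ω ι}

lemma on_rl (h : l.On q) : (rl hN z l).On (z + rf N (q - z)) := by
  obtain ⟨t, rfl⟩ := l.on_x.sub h
  rw [add_sub_right_comm, rf_add, rf_smul, ← add_assoc]
  exact (on_mkLi _ _ _).add t

include hN in
lemma dot_rl (q u : ι → Ω) : (z + rf N (q - z)) ⬝ᵥ rf N u = q ⬝ᵥ u + z ⬝ᵥ (rf N u - u) := by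
  rw [add_dotProduct, rf_dot_rf hN, sub_dotProduct, dotProduct_sub]; ring

variable [Algebra k Ω] [CharZero Ω]

lemma step_rl {F F' : MvPolynomial ι k} (h : ∀ x, aeval (z + rf N (x - z)) F' = aeval x F)
    (s : Step F l q l') : Step F' (rl hN z l) (z + rf N (q - z)) (rl hN z l') := by
  refine ⟨on_rl hN s.on, on_rl hN s.on', (h q).trans s.zero, ?_, ?_, ?_⟩ <;> rw [grad_refl hN h]
  · rw [rf_dot_rf hN]; exact s.nn
  · change rf N _ ⬝ᵥ rf N l.u ≠ 0
    rw [rf_dot_rf hN]; exact s.nu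
  · change rf N l'.u = rf _ (rf N l.u)
    rw [rf_conj hN, s.eq]

/-- The equation of a plane. -/
lemma plane {F : MvPolynomial ι k} (h : F.totalDegree < 2) :
    ∃ (N : ι → k) (c : k), ∀ x : ι → Ω, grad F x = algebraMap k Ω ∘ N ∧
      aeval x F = (algebraMap k Ω ∘ N) ⬝ᵥ x + algebraMap k Ω c := by
  have : CharZero k := (algebraMap k Ω).charZero
  have h1 : ∀ i, pderiv i F = MvPolynomial.C (coeff 0 (pderiv i F)) := fun i => by
    by_cases e : pderiv i F = 0
    · simp [e]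
    · have := H88.totalDegree_pderiv_lt e
      exact totalDegree_eq_zero_iff_eq_C.1 (by omega)
  choose N hN using fun i => (⟨_, h1 i⟩ : ∃ a, pderiv i F = MvPolynomial.C a)
  have h2 := totalDegree_eq_zero_iff_eq_C.1 (td_zero_of_pderiv
    (P := F - ∑ i, MvPolynomial.C (N i) * X i) fun j => by simp [hN, pderiv_X, Pi.single_apply])
  obtain ⟨c, hc⟩ : ∃ c, F - ∑ i, MvPolynomial.C (N i) * X i = MvPolynomial.C c := ⟨_, h2⟩
  refine ⟨N, c, fun x => ⟨funext fun i => by simp [grad, hN], ?_⟩⟩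
  rw [sub_eq_iff_eq_add'.1 hc]
  simp [dotProduct]

variable [Algebra k ℝ]

/-- Reflections in real mirrors that are not planes. -/
def NSt (F : MvPolynomial ι k) (l : Li Ω ι) (q : ι → Ω) (l' : Li Ω ι) : Prop :=
  (RM F ∧ 2 ≤ F.totalDegree) ∧ Step F l q l'

/-- Planes are moved to the end of the path. -/
theorem unfold (n : ℕ) : ∀ (F : ℕ → MvPolynomial ι k) (L : ℕ → Li Ω ι) (q : ℕ → ι → Ω),
    (∀ i < n, RM (F i) ∧ Step (F i) (L i) (q i) (L (i + 1))) →
    ∃ (l' : Li Ω ι) (n' : ℕ) (F' : ℕ → MvPolynomial ι k) (L' : ℕ → Li Ω ι) (q' : ℕ → ι → Ω)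
      (A : Matrix ι ι k) (b : ι → k), Pa NSt (L 0) l' n' F' L' q' ∧
      l'.u = A.map (algebraMap k Ω) *ᵥ (L n).u ∧
      l'.On (A.map (algebraMap k Ω) *ᵥ (L n).x + algebraMap k Ω ∘ b) ∧ tot n L q =
        tot n' L' q' + (A.map (algebraMap k Ω) *ᵥ (L n).x + algebraMap k Ω ∘ b) ⬝ᵥ l'.u := by
  induction n with
  | zero =>
    refine fun F L q _ => ⟨L 0, 0, F, L, q, 1, 0, ⟨fun _ h => absurd h (by omega), rfl, rfl⟩,
      by simp, ?_, ?_⟩
    · simpa [Function.comp_def, ← Pi.zero_def] using (L 0).on_x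
    · simp [tot, Function.comp_def, ← Pi.zero_def, (L 0).xu]
  | succ n ih =>
    intro F L q h
    obtain ⟨l', n', F', L', q', A, b, p, e1, e2, e3⟩ := ih (fun i => F (i + 1)) (fun i => L (i + 1))
      (fun i => q (i + 1)) fun i hi => h (i + 1) (by omega)
    obtain ⟨r, s⟩ := h 0 (by omega)
    have e4 : tot (n + 1) L q = tot n (fun i => L (i + 1)) (fun i => q (i + 1)) +
      del (L 0) (q 0) (L 1) := Finset.sum_range_succ' _ _
    by_cases h2 : 2 ≤ (F 0).totalDegree
    · refine ⟨l', n' + 1, fun i => i.casesOn (F 0) F', fun i => i.casesOn (L 0) L',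
        fun i => i.casesOn (q 0) q', A, b, ⟨?_, rfl, p.ln⟩, e1, e2, ?_⟩
      · rintro (_ | i) hi
        · exact ⟨⟨r, h2⟩, by simpa [p.l0] using s⟩
        · exact p.st i (by omega)
      · rw [e4, e3, tot, tot, Finset.sum_range_succ']
        simp only [Nat.rec_zero, zero_add, p.l0]
        ring
    · obtain ⟨N, c, hF⟩ := plane (Ω := Ω) (not_le.1 h2)
      obtain ⟨N', hN'⟩ : ∃ N', N' = algebraMap k Ω ∘ N := ⟨_, rfl⟩
      simp only [← hN'] at hF
      have hN : N' ⬝ᵥ N' ≠ 0 := (hF _).1 ▸ s.nn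
      have d1 : N' ⬝ᵥ N' = algebraMap k Ω (N ⬝ᵥ N) := by simp [hN', dotProduct]
      have hN0 : N ⬝ᵥ N ≠ 0 := fun e => hN (by rw [d1, e, map_zero])
      have d2 : N' ⬝ᵥ q 0 = -algebraMap k Ω c := by linear_combination s.zero - (hF (q 0)).2
      have d3 : ∀ x, q 0 + rf N' (x - q 0) = (rm N).map (algebraMap k Ω) *ᵥ x +
          algebraMap k Ω ∘ ((-2 * c / (N ⬝ᵥ N)) • N) := fun x => by
        rw [rm_mulVec, ← hN', rf_sub, rf.eq_1 N' (q 0), d2, d1]
        ext i
        simp [hN', map_ofNat]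
        ring
      have d4 : rl hN (q 0) (L 1) = L 0 :=
        Li.eq_of_on (by simpa [rf] using on_rl hN (z := q 0) s.on') s.on (by
          change rf N' (L 1).u = _
          rw [s.eq, (hF _).1, rf_rf hN])
      have d5 : ∀ x, q 0 + rf N' (q 0 + rf N' (x - q 0) - q 0) = x := fun x => by
        rw [add_sub_cancel_left, rf_rf hN, add_sub_cancel]
      have d6 : tot n' (fun i => rl hN (q 0) (L' i)) (fun i => q 0 + rf N' (q' i - q 0)) =
          tot n' L' q' + (q 0 ⬝ᵥ (rf N' (L' 0).u - (L' 0).u) -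
            q 0 ⬝ᵥ (rf N' (L' n').u - (L' n').u)) := by
        rw [← Finset.sum_range_sub' fun i => q 0 ⬝ᵥ (rf N' (L' i).u - (L' i).u), tot, tot,
          ← Finset.sum_add_distrib]
        refine Finset.sum_congr rfl fun i _ => ?_
        change _ ⬝ᵥ (rf N' _ - rf N' _) = _
        rw [dotProduct_sub, dot_rl hN, dot_rl hN, del, dotProduct_sub (q' i)]
        ring
      have d7 : (rm N * A).map (algebraMap k Ω) *ᵥ (L (n + 1)).x +
          algebraMap k Ω ∘ (rm N *ᵥ b + (-2 * c / (N ⬝ᵥ N)) • N) = q 0 + rf N'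
            (A.map (algebraMap k Ω) *ᵥ (L (n + 1)).x + algebraMap k Ω ∘ b - q 0) := by
        rw [d3, Matrix.map_mul, ← mulVec_mulVec, mulVec_add, add_assoc]
        congr 1
        ext i
        simp [mulVec, dotProduct]
      refine ⟨rl hN (q 0) l', n', fun i => sub (rm N) ((-2 * c / (N ⬝ᵥ N)) • N) (F' i),
        fun i => rl hN (q 0) (L' i), fun i => q 0 + rf N' (q' i - q 0), rm N * A,
        rm N *ᵥ b + (-2 * c / (N ⬝ᵥ N)) • N, ⟨fun i hi => ⟨?_, step_rl hN (fun x => ?_)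
          (p.st i hi).2⟩, by rw [p.l0, d4], by rw [p.ln]⟩, ?_, d7 ▸ on_rl hN e2, ?_⟩
      · exact (p.st i hi).1.1.refl (p.st i hi).1.2 hN0 _
      · rw [aeval_sub, ← d3, d5]
      · rw [Matrix.map_mul, ← mulVec_mulVec, ← e1, rm_mulVec, ← hN']; rfl
      · rw [e4, e3, d6, d7, p.l0, p.ln]
        change _ = _ + _ ⬝ᵥ rf N' l'.u
        rw [dot_rl hN, del, ← d4]
        change _ + _ ⬝ᵥ (rf N' _ - _) = _
        ring

end Line

section Down

variable [Algebra C Ω] {l l' : Li Ω ι} {q : ι → Ω} {F : MvPolynomial ι C}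

omit [Fintype ι] [DecidableEq ι] in
lemma coeff_line_mem {K : IntermediateField C Ω} {x u : ι → Ω} (hx : ∀ j, x j ∈ K)
    (hu : ∀ j, u j ∈ K) (F : MvPolynomial ι C) (i : ℕ) : (line F x u).coeff i ∈ K := by
  have : line F x u = (line F (fun j => (⟨x j, hx j⟩ : K)) fun j => ⟨u j, hu j⟩).map
      (algebraMap K Ω) := by
    unfold line
    induction F using MvPolynomial.induction_on with
    | C a => simp [← IsScalarTower.algebraMap_apply]
    | add p q hp hq => simp [hp, hq]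
    | mul_X p i hp => simp [hp]
  rw [this, Polynomial.coeff_map]
  exact Subtype.prop _

omit [Fintype ι] [DecidableEq ι] in
lemma aeval_mem {K : IntermediateField C Ω} {x : ι → Ω} (hx : ∀ j, x j ∈ K)
    (F : MvPolynomial ι C) : aeval x F ∈ K := by
  induction F using MvPolynomial.induction_on with
  | C a => simp
  | add p q hp hq => simpa using add_mem hp hq
  | mul_X p i hp => simpa using mul_mem hp (hx i)

lemma step_mem {S : Set Ω} (s : Step F l q l') (h : ∀ j, l.u j ∈ cl C S ∧ l.x j ∈ cl C S) :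
    (∀ j, q j ∈ cl C S) ∧ ∀ j, l'.u j ∈ cl C S ∧ l'.x j ∈ cl C S := by
  have h1 : q ⬝ᵥ l.u ∈ cl C S := mem_cl_of_root (p := line F l.x l.u) (fun e => s.nu (by
      rw [s.on, ← eval_derivative_line, e]; simp))
    (coeff_line_mem (fun j => (h j).2) (fun j => (h j).1) F) (by rw [eval_line, ← s.on, s.zero])
  have h2 : ∀ j, q j ∈ cl C S := fun j => by
    rw [s.on]; exact add_mem (h j).2 (mul_mem h1 (h j).1)
  have h3 : ∀ j, grad F q j ∈ cl C S := fun j => aeval_mem h2 _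
  have h4 : ∀ j, l'.u j ∈ cl C S := fun j => by
    rw [s.eq]
    exact sub_mem (h j).1 (mul_mem (div_mem (mul_mem (_root_.ofNat_mem _ 2)
      (H90.dot_mem h3 fun j => (h j).1)) (H90.dot_mem h3 h3)) (h3 j))
  refine ⟨h2, fun j => ⟨h4 j, ?_⟩⟩
  rw [show l'.x j = q j - (q ⬝ᵥ l'.u) * l'.u j from eq_sub_of_add_eq (congrFun s.on' j).symm]
  exact sub_mem (h2 j) (mul_mem (H90.dot_mem h2 h4) (h4 j))

variable {Ω' : Type} [Field Ω'] [Algebra C Ω'] (φ : Ω →ₐ[C] Ω')

omit [DecidableEq ι] in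
lemma on_of_map (h : (H72.Li.map φ l).On (φ ∘ q)) : l.On q := funext fun j => φ.injective (by
  have h1 : φ (q j) = φ (l.x j) + ((φ ∘ q) ⬝ᵥ (φ ∘ l.u)) * φ (l.u j) := congrFun h j
  rw [H72.dot_map, ← map_mul, ← map_add] at h1
  exact h1)

omit [DecidableEq ι] in
lemma step_of_map (h : Step F (H72.Li.map φ l) (φ ∘ q) (H72.Li.map φ l')) : Step F l q l' := by
  have hg : grad F (φ ∘ q) = φ ∘ grad F q := funext fun i => H72.aeval_map φ q _
  obtain ⟨h1, h2, h3, h4, h5, h6⟩ := h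
  rw [hg] at h4 h5 h6
  change _ ⬝ᵥ (φ ∘ l.u) ≠ 0 at h5
  change φ ∘ l'.u = rf _ (φ ∘ l.u) at h6
  rw [H72.aeval_map, map_eq_zero] at h3
  rw [H72.dot_map, map_ne_zero] at h4 h5
  rw [rf, H72.dot_map, H72.dot_map] at h6
  refine ⟨on_of_map φ h1, on_of_map φ h2, h3, h4, h5, funext fun j => ?_⟩
  apply (φ : Ω →+* Ω').injective
  simpa [rf, map_ofNat] using congrFun h6 j

omit [DecidableEq ι] in
lemma exists_res {K : IntermediateField C Ω} (h : ∀ j, l.u j ∈ K ∧ l.x j ∈ K) :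
    ∃ l0 : Li K ι, H72.Li.map K.val l0 = l :=
  ⟨⟨fun j => ⟨l.u j, (h j).1⟩, fun j => ⟨l.x j, (h j).2⟩,
    Subtype.ext (by simpa [dotProduct] using l.uu), Subtype.ext (by simpa [dotProduct] using l.xu)⟩,
    rfl⟩

omit [DecidableEq ι] in
lemma gen_res [CharZero Ω] (h : Gen C l) {K : IntermediateField C Ω}
    (hK : K = cl C (range l.u ∪ range l.x)) {l0 : Li K ι} (e : H72.Li.map K.val l0 = l) :
    Gen C l0 := fun a b h1 h2 => by
  have e1 : ∀ j, l.u j = l0.u j := fun j => (congrFun (congrArg Li.u e) j).symm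
  have e2 : ∀ j, l.x j = l0.x j := fun j => (congrFun (congrArg Li.x e) j).symm
  obtain ⟨θ, h3, h4⟩ := h (fun j => a j) (fun j => b j)
    (by simpa [dotProduct, e1] using congrArg Subtype.val h1)
    (by simpa [dotProduct, e1, e2] using congrArg Subtype.val h2)
  have hp : H96.Pres K θ := hK ▸ H96.pres_cl (by
    rintro _ (⟨j, rfl⟩ | ⟨j, rfl⟩)
    exacts [h3 j ▸ hK ▸ (a j).2, h4 j ▸ hK ▸ (b j).2])
  exact ⟨Derivation.mk' ⟨⟨fun f => ⟨θ f, hp f f.2⟩, fun f g => Subtype.ext (by simp)⟩,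
    fun c f => Subtype.ext (by simp)⟩ fun f g => Subtype.ext (by simp),
    fun j => Subtype.ext ((congrArg θ (e1 j)).symm.trans (h3 j)),
    fun j => Subtype.ext ((congrArg θ (e2 j)).symm.trans (h4 j))⟩

variable [Algebra k ℝ] [Algebra k C]

/-- The statement for arbitrary fields. -/
theorem zero [CharZero Ω] (hF : H72.Fin' k C ι) (hl : Gen C l) {n : ℕ} {m : ℕ → H32.Mir k C ι}
    {L : ℕ → Li Ω ι} {q : ℕ → ι → Ω} (h : Pa (fun m : H32.Mir k C ι => Step m.f) l l' n m L q)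
    (A : Matrix ι ι C) (b : ι → C) (hu : l'.u = A.map (algebraMap C Ω) *ᵥ l.u)
    (hx : l'.On (A.map (algebraMap C Ω) *ᵥ l.x + algebraMap C Ω ∘ b)) :
    l' = l ∧ tot n L q = 0 := by
  obtain ⟨K, hK⟩ : ∃ K, K = cl C (range l.u ∪ range l.x) := ⟨_, rfl⟩
  have h1 : ∀ i ≤ n, ∀ j, (L i).u j ∈ K ∧ (L i).x j ∈ K := fun i hi => by
    subst hK
    induction i with
    | zero => exact h.l0 ▸ fun j =>
        ⟨subset_cl _ (Or.inl ⟨j, rfl⟩), subset_cl _ (Or.inr ⟨j, rfl⟩)⟩
    | succ i ih => exact (step_mem (h.st i hi) (ih (by omega))).2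
  choose L0 hL using fun i => exists_res (h1 (min i n) (min_le_right _ _))
  have h2 : ∀ i, ∃ p : ι → K, i < n → K.val ∘ p = q i := fun i => by
    by_cases hi : i < n
    · exact ⟨fun j => ⟨q i j, hK ▸ (step_mem (h.st i hi) (hK ▸ h1 i hi.le)).1 j⟩, fun _ => rfl⟩
    · exact ⟨0, fun e => absurd e hi⟩
  choose q0 hq using h2
  have h3 : ∀ i ≤ n, H72.Li.map K.val (L0 i) = L i := fun i hi => by rw [hL, min_eq_left hi]
  have e0 : H72.Li.map K.val (L0 0) = l := (h3 0 n.zero_le).trans h.l0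
  have en : H72.Li.map K.val (L0 n) = l' := (h3 n le_rfl).trans h.ln
  have eu : K.val ∘ (L0 0).u = l.u := congrArg Li.u e0
  have ex : K.val ∘ (L0 0).x = l.x := congrArg Li.x e0
  have : CharZero K := algebraRat.charZero _
  have hA : ∀ v : ι → K, K.val ∘ (A.map (algebraMap C K) *ᵥ v) =
      A.map (algebraMap C Ω) *ᵥ (K.val ∘ v) := fun v => by
    ext i; simp [mulVec, dotProduct]
  obtain ⟨a1, a2⟩ := H72.zero hF (l := L0 0) (l' := L0 n) (n := n) (m := m) (L := L0) (q := q0)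
    (gen_res hl hK e0) (fun a => H96A.Down.mem_cl_of_map K.val (by
      rw [image_union, ← range_comp, ← range_comp, eu, ex, ← hK]; exact a.2))
    ⟨fun i hi => step_of_map K.val (by
      rw [h3 i hi.le, h3 (i + 1) hi, hq i hi]; exact h.st i hi), rfl, rfl⟩ A b
    (funext fun j => K.val.injective (congrFun (show K.val ∘ _ = K.val ∘ _ by
      rw [hA, eu, ← hu, ← en]; rfl) j))
    (on_of_map K.val (by
      rw [en]
      convert hx using 1
      rw [← ex, ← hA]
      ext i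
      simp))
  refine ⟨by rw [← en, a1, e0], ?_⟩
  rw [← map_zero K.val, ← a2, tot, tot, map_sum]
  refine Finset.sum_congr rfl fun i hi => ?_
  have hi := Finset.mem_range.1 hi
  rw [← h3 i hi.le, ← h3 (i + 1) hi, ← hq i hi]
  simp [del, H72.Li.map, dotProduct]

end Down

end Pool.Agent.MP_249f74_an.H52
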